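import Mathlib
import Pool.Agent.Helper46.PLapTrig

set_option autoImplicit false

open Finset

namespace Pool.Agent.Helper88.PLap

open Pool.Agent.Helper46.PLapTrig

noncomputable def nd (m : ℕ) (α : ℝ) (k : ℕ) : ℝ := (α + k * Real.pi) / m

noncomputable def wg (m : ℕ) (α : ℝ) (k : ℕ) : ℝ :=
  Real.sin α ^ 2 / (2 * m * (1 - Real.cos (nd m α k)))

noncomputable def SS (m : ℕ) (α : ℝ) (j : ℤ) : ℂ :=
  ∑ k ∈ range (2 * m), (((-1) ^ k * wg m α k : ℝ) : ℂ) * E j (nd m α k)

noncomputable def GG (m : ℕ) (α : ℝ) (j : ℤ) : ℂ :=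
  ∑ k ∈ range (2 * m), (((-1) ^ k : ℝ) : ℂ) * E j (nd m α k)

lemma cos_lt (m : ℕ) (hm : 0 < m) (α : ℝ) (hα : Real.sin α ≠ 0) (k : ℕ) :
    0 < 1 - Real.cos (nd m α k) := by
  rcases (Real.cos_le_one (nd m α k)).lt_or_eq with h | h
  · linarith
  · exfalso
    rw [Real.cos_eq_one_iff] at h
    obtain ⟨z, hz⟩ := h
    apply hα
    have hm' : (m : ℝ) ≠ 0 := by exact_mod_cast hm.ne'
    have h1 : α = ((2 * z * m - k : ℤ) : ℝ) * Real.pi := by
      unfold nd at hz
      rw [eq_div_iff hm'] at hz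
      push_cast
      linarith
    rw [h1, Real.sin_int_mul_pi]

lemma wg_pos (m : ℕ) (hm : 0 < m) (α : ℝ) (hα : Real.sin α ≠ 0) (k : ℕ) : 0 < wg m α k := by
  have h1 := cos_lt m hm α hα k
  have hm' : (0 : ℝ) < m := by exact_mod_cast hm
  unfold wg
  positivity

lemma E_step (j : ℤ) (t : ℝ) : E (j + 1) t + E (j - 1) t - 2 * E j t =
    -((2 * (1 - Real.cos t) : ℝ) : ℂ) * E j t := by
  have h1 : E (j + 1) t = E j t * Complex.exp ((t : ℂ) * Complex.I) := by
    simp only [E]
    rw [← Complex.exp_add]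
    congr 1
    push_cast
    ring
  have h2 : E (j - 1) t = E j t * Complex.exp (-(t : ℂ) * Complex.I) := by
    simp only [E]
    rw [← Complex.exp_add]
    congr 1
    push_cast
    ring
  rw [h1, h2, Complex.exp_mul_I, Complex.exp_mul_I, Complex.cos_neg, Complex.sin_neg]
  push_cast
  ring

lemma SS_step (m : ℕ) (hm : 0 < m) (α : ℝ) (hα : Real.sin α ≠ 0) (j : ℤ) :
    SS m α (j + 1) + SS m α (j - 1) - 2 * SS m α j =
      -((Real.sin α ^ 2 / m : ℝ) : ℂ) * GG m α j := by
  unfold SS GG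
  rw [Finset.mul_sum, Finset.mul_sum, ← Finset.sum_add_distrib, ← Finset.sum_sub_distrib]
  apply Finset.sum_congr rfl
  intro k _
  have h1 := cos_lt m hm α hα k
  have hm' : (m : ℝ) ≠ 0 := by exact_mod_cast hm.ne'
  have h3 : wg m α k * (2 * (1 - Real.cos (nd m α k))) = Real.sin α ^ 2 / m := by
    unfold wg
    field_simp
  rw [← h3]
  have h2 := E_step j (nd m α k)
  have : (((-1) ^ k * wg m α k : ℝ) : ℂ) * E (j + 1) (nd m α k) +
      (((-1) ^ k * wg m α k : ℝ) : ℂ) * E (j - 1) (nd m α k) -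
      2 * ((((-1) ^ k * wg m α k : ℝ) : ℂ) * E j (nd m α k)) =
      (((-1) ^ k * wg m α k : ℝ) : ℂ) *
        (E (j + 1) (nd m α k) + E (j - 1) (nd m α k) - 2 * E j (nd m α k)) := by ring
  rw [this, h2]
  push_cast
  ring

lemma geomC (m : ℕ) (hm : 0 < m) (j : ℤ) (hj : |j| < m) :
    ∑ k ∈ range (2 * m), (Complex.exp (((j + m : ℤ) * (Real.pi / m) : ℝ) * Complex.I)) ^ k
      = 0 := by
  have hm' : (m : ℂ) ≠ 0 := by exact_mod_cast hm.ne'
  set z : ℂ := Complex.exp (((j + m : ℤ) * (Real.pi / m) : ℝ) * Complex.I) with hz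
  have hz1 : z ^ (2 * m) = 1 := by
    rw [hz, ← Complex.exp_nat_mul, Complex.exp_eq_one_iff]
    refine ⟨j + m, ?_⟩
    push_cast
    field_simp
  have hz2 : z ≠ 1 := by
    intro h
    rw [hz, Complex.exp_eq_one_iff] at h
    obtain ⟨n, hn⟩ := h
    have h1 : ((j + m : ℤ) : ℂ) = 2 * m * n := by
      have h2 := hn
      push_cast at h2 ⊢
      have hpi : (Real.pi : ℂ) ≠ 0 := by exact_mod_cast Real.pi_ne_zero
      field_simp at h2
      have hI := Complex.I_ne_zero
      have : ((j : ℂ) + m) = m * n * 2 := by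
        linear_combination h2
      linear_combination this
    have h2 : j + m = 2 * m * n := by exact_mod_cast h1
    have h3 := abs_lt.mp hj
    have h4 : 0 < 2 * (m : ℤ) * n := by rw [← h2]; linarith
    have h5 : 2 * (m : ℤ) * n < 2 * m * 1 := by rw [← h2]; linarith
    have hm2 : (0 : ℤ) < 2 * m := by positivity
    have h6 : 0 < n := by
      by_contra hneg
      push Not at hneg
      nlinarith
    have h7 : n < 1 := lt_of_mul_lt_mul_left h5 hm2.le
    omega
  have := geom_sum_mul z (2 * m)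
  rw [hz1, sub_self] at this
  rcases mul_eq_zero.mp this with h | h
  · exact h
  · exact absurd (sub_eq_zero.mp h) hz2

lemma E_node (m : ℕ) (hm : 0 < m) (α : ℝ) (j : ℤ) (k : ℕ) :
    (((-1) ^ k : ℝ) : ℂ) * E j (nd m α k) =
      Complex.exp (((j * (α / m) : ℝ) : ℂ) * Complex.I) *
        (Complex.exp (((j + m : ℤ) * (Real.pi / m) : ℝ) * Complex.I)) ^ k := by
  have hm' : (m : ℂ) ≠ 0 := by exact_mod_cast hm.ne'
  have h1 : (((-1) ^ k : ℝ) : ℂ) = (Complex.exp ((Real.pi : ℂ) * Complex.I)) ^ k := by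
    rw [Complex.exp_pi_mul_I]
    push_cast
    rfl
  rw [h1, ← Complex.exp_nat_mul, ← Complex.exp_nat_mul]
  simp only [E, nd]
  rw [← Complex.exp_add, ← Complex.exp_add]
  congr 1
  push_cast
  field_simp
  ring

lemma GG_zero (m : ℕ) (hm : 0 < m) (α : ℝ) (j : ℤ) (hj : |j| < m) : GG m α j = 0 := by
  unfold GG
  rw [Finset.sum_congr rfl (fun k _ => E_node m hm α j k), ← Finset.mul_sum, geomC m hm j hj,
    mul_zero]

lemma GG_m (m : ℕ) (hm : 0 < m) (α : ℝ) :
    GG m α m = 2 * m * Complex.exp ((α : ℂ) * Complex.I) := by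
  have hm' : (m : ℂ) ≠ 0 := by exact_mod_cast hm.ne'
  unfold GG
  have h1 : ∀ k ∈ range (2 * m), (((-1) ^ k : ℝ) : ℂ) * E (m : ℤ) (nd m α k) =
      Complex.exp ((α : ℂ) * Complex.I) := by
    intro k _
    rw [E_node m hm α m k]
    have h2 : Complex.exp ((((m : ℤ) + m : ℤ) * (Real.pi / m) : ℝ) * Complex.I) = 1 := by
      rw [Complex.exp_eq_one_iff]
      refine ⟨1, ?_⟩
      push_cast
      field_simp
      ring
    rw [h2, one_pow, mul_one]
    congr 1
    push_cast
    field_simp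
  rw [Finset.sum_congr rfl h1, Finset.sum_const, Finset.card_range, nsmul_eq_mul]
  push_cast
  ring

lemma SS_per (m : ℕ) (hm : 0 < m) (α : ℝ) (j : ℤ) :
    SS m α (j + 2 * m) = Complex.exp (2 * (α : ℂ) * Complex.I) * SS m α j := by
  have hm' : (m : ℂ) ≠ 0 := by exact_mod_cast hm.ne'
  unfold SS
  rw [Finset.mul_sum]
  apply Finset.sum_congr rfl
  intro k _
  have h1 : E (j + 2 * m) (nd m α k) =
      Complex.exp (2 * (α : ℂ) * Complex.I) * E j (nd m α k) := by
    simp only [E, nd]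
    rw [← Complex.exp_add, Complex.exp_eq_exp_iff_exists_int]
    refine ⟨k, ?_⟩
    push_cast
    field_simp
    ring
  rw [h1]
  ring

lemma SS_aff (m : ℕ) (hm : 0 < m) (α : ℝ) (hα : Real.sin α ≠ 0) (k : ℕ) (hk : k ≤ 2 * m) :
    SS m α (-m + k) = SS m α (-m) + k * (SS m α (-m + 1) - SS m α (-m)) := by
  induction k using Nat.strong_induction_on with
  | _ k ih =>
    rcases k with _ | _ | k
    · simp
    · push_cast
      ring_nf
    · have h1 := ih (k + 1) (by omega) (by omega)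
      have h0 := ih k (by omega) (by omega)
      have h := SS_step m hm α hα (-m + (k + 1 : ℕ))
      rw [GG_zero m hm α _ (by
        rw [abs_lt]
        push_cast
        constructor <;> omega), mul_zero] at h
      have e1 : (-(m : ℤ) + ((k + 1 : ℕ) : ℤ) + 1) = -m + ((k + 1 + 1 : ℕ) : ℤ) := by
        push_cast; ring
      have e2 : (-(m : ℤ) + ((k + 1 : ℕ) : ℤ) - 1) = -m + (k : ℤ) := by push_cast; ring
      rw [e1, e2, h1, h0] at h
      push_cast at h ⊢
      linear_combination h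

lemma SS_val (m : ℕ) (hm : 0 < m) (α : ℝ) (hα : Real.sin α ≠ 0) :
    SS m α (-m) = m * Complex.exp (-(α : ℂ) * Complex.I) ∧
    SS m α (-m + 1) - SS m α (-m) = Complex.I * Real.sin α := by
  have hm' : (m : ℂ) ≠ 0 := by exact_mod_cast hm.ne'
  set R := SS m α (-m) with hR
  set D := SS m α (-m + 1) - SS m α (-m) with hD
  set e := Complex.exp ((α : ℂ) * Complex.I) with he
  have he0 : e ≠ 0 := Complex.exp_ne_zero _
  have he2 : Complex.exp (2 * (α : ℂ) * Complex.I) = e * e := by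
    rw [he, ← Complex.exp_add]
    congr 1
    ring
  have hei : Complex.exp (-(α : ℂ) * Complex.I) * e = 1 := by
    rw [he, ← Complex.exp_add]
    rw [show -(α : ℂ) * Complex.I + α * Complex.I = 0 by ring, Complex.exp_zero]
  set f := Complex.exp (-(α : ℂ) * Complex.I) with hf
  have hef : e - f = 2 * Complex.I * Real.sin α := by
    rw [he, hf, Complex.exp_mul_I, Complex.exp_mul_I, Complex.cos_neg, Complex.sin_neg]
    push_cast
    ring
  have hs : ((Real.sin α : ℝ) : ℂ) ≠ 0 := by exact_mod_cast hα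
  -- values
  have h2m := SS_aff m hm α hα (2 * m) le_rfl
  have h2m1 := SS_aff m hm α hα (2 * m - 1) (by omega)
  have p0 := SS_per m hm α (-m)
  have p1 := SS_per m hm α (-m + 1)
  have st := SS_step m hm α hα m
  rw [GG_m m hm α] at st
  have c1 : (-(m : ℤ) + ((2 * m : ℕ) : ℤ)) = m := by push_cast; ring
  have c2 : (-(m : ℤ) + ((2 * m - 1 : ℕ) : ℤ)) = m - 1 := by
    have : ((2 * m - 1 : ℕ) : ℤ) = 2 * m - 1 := by
      rw [Nat.cast_sub (by omega)]
      push_cast
      ring
    rw [this]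
    ring
  have c3 : (-(m : ℤ) + 2 * m) = m := by ring
  have c4 : (-(m : ℤ) + 1 + 2 * m) = m + 1 := by ring
  have c5 : ((2 * m - 1 : ℕ) : ℂ) = 2 * m - 1 := by
    rw [Nat.cast_sub (by omega)]
    push_cast
    ring
  rw [c1] at h2m
  rw [c2, c5] at h2m1
  rw [c3, he2] at p0
  rw [c4, he2] at p1
  rw [← hD, ← hR] at h2m h2m1
  rw [← hR] at p0
  have p1' : SS m α (m + 1) = e * e * (R + D) := by
    rw [p1, hD, hR]
    ring
  rw [p1', h2m1, h2m] at st
  rw [h2m] at p0
  push_cast at st p0 hef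
  have hsq : ((Complex.sin (α : ℂ)) ^ 2 / m * (2 * m * e)) = 2 * Complex.sin α ^ 2 * e := by
    field_simp
  have st' : (e * e - 1) * D = -(2 * Complex.sin α ^ 2 * e) := by
    linear_combination st + p0 - hsq
  have hee : e * e - 1 = 2 * Complex.I * Complex.sin α * e := by
    linear_combination e * hef + hei
  rw [hee] at st'
  have hs' : Complex.sin (α : ℂ) ≠ 0 := by
    rw [← Complex.ofReal_sin]
    exact hs
  have hDv : D = Complex.I * Complex.sin α := by
    have h1 : (2 * Complex.sin (α : ℂ) * e) * (Complex.I * D + Complex.sin α) = 0 := by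
      linear_combination st'
    rcases mul_eq_zero.mp h1 with h | h
    · exfalso
      rcases mul_eq_zero.mp h with h | h
      · rcases mul_eq_zero.mp h with h | h
        · norm_num at h
        · exact hs' h
      · exact he0 h
    · linear_combination (-Complex.I) * h + D * Complex.I_sq
  have hRv : R = m * f := by
    have h1 : (2 * Complex.I * Complex.sin (α : ℂ)) * (R * e - m) = 0 := by
      rw [hDv] at p0
      linear_combination R * hee * (-1) - p0
    rcases mul_eq_zero.mp h1 with h | h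
    · exfalso
      rcases mul_eq_zero.mp h with h | h
      · rcases mul_eq_zero.mp h with h | h
        · norm_num at h
        · exact Complex.I_ne_zero h
      · exact hs' h
    · linear_combination f * h - R * hei
  refine ⟨hRv, ?_⟩
  rw [hDv]
  push_cast
  rfl

lemma SS_eq (m : ℕ) (hm : 0 < m) (α : ℝ) (hα : Real.sin α ≠ 0) (j : ℤ) (hj : |j| ≤ m) :
    SS m α j = m * Real.cos α + Complex.I * j * Real.sin α := by
  obtain ⟨h1, h2⟩ := abs_le.mp hj
  obtain ⟨k, hk⟩ := Int.eq_ofNat_of_zero_le (show 0 ≤ j + m by linarith)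
  have hj' : j = -(m : ℤ) + (k : ℤ) := by linarith
  have hk2 : k ≤ 2 * m := by omega
  obtain ⟨v1, v2⟩ := SS_val m hm α hα
  have := SS_aff m hm α hα k hk2
  rw [← hj', v2, v1] at this
  rw [this, Complex.exp_mul_I, Complex.cos_neg, Complex.sin_neg]
  have hjc : (j : ℂ) = -(m : ℂ) + (k : ℂ) := by
    rw [hj']
    push_cast
    ring
  rw [hjc]
  push_cast
  ring

lemma sum_wg (m : ℕ) (hm : 0 < m) (α : ℝ) (hα : Real.sin α ≠ 0) :
    ∑ k ∈ range (2 * m), wg m α k = m := by
  have hm' : (m : ℂ) ≠ 0 := by exact_mod_cast hm.ne'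
  have h1 := SS_eq m hm α hα m (by simp)
  have h2 : SS m α m = Complex.exp ((α : ℂ) * Complex.I) *
      ((∑ k ∈ range (2 * m), wg m α k : ℝ) : ℂ) := by
    unfold SS
    push_cast
    rw [Finset.mul_sum]
    apply Finset.sum_congr rfl
    intro k _
    have := E_node m hm α m k
    have h3 : Complex.exp ((((m : ℤ) + m : ℤ) * (Real.pi / m) : ℝ) * Complex.I) = 1 := by
      rw [Complex.exp_eq_one_iff]
      refine ⟨1, ?_⟩
      push_cast
      field_simp
      ring
    rw [h3, one_pow, mul_one] at this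
    have h4 : Complex.exp ((((m : ℤ) * (α / m) : ℝ) : ℂ) * Complex.I) =
        Complex.exp ((α : ℂ) * Complex.I) := by
      congr 1
      push_cast
      field_simp
    rw [h4] at this
    rw [← this]
    push_cast
    ring
  rw [h2] at h1
  have h5 : Complex.exp ((α : ℂ) * Complex.I) = Real.cos α + Complex.I * Real.sin α := by
    rw [Complex.exp_mul_I]
    push_cast
    ring
  have h6 : Complex.exp ((α : ℂ) * Complex.I) *
      (((∑ k ∈ range (2 * m), wg m α k : ℝ) : ℂ) - m) = 0 := by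
    rw [mul_sub, h1, h5]
    push_cast
    ring
  rcases mul_eq_zero.mp h6 with h | h
  · exact absurd h (Complex.exp_ne_zero _)
  · have h7 : ((∑ k ∈ range (2 * m), wg m α k : ℝ) : ℂ) = ((m : ℝ) : ℂ) := by
      push_cast
      push_cast at h
      exact sub_eq_zero.mp h
    exact_mod_cast h7

def PP (m : ℕ) (α : ℝ) (T : ℝ → ℂ) : Prop :=
  ∃ D : ℂ, HasDerivAt T D 0 ∧
    ∑ k ∈ range (2 * m), (((-1) ^ k * wg m α k : ℝ) : ℂ) * T (nd m α k) =
      m * Real.cos α * T 0 + Real.sin α * D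

lemma PP_E (m : ℕ) (hm : 0 < m) (α : ℝ) (hα : Real.sin α ≠ 0) (j : ℤ) (hj : |j| ≤ m) :
    PP m α (E j) := by
  have hd : ∀ t : ℝ, HasDerivAt (E j) ((j : ℂ) * Complex.I * E j t) t := by
    intro t
    have h1 : HasDerivAt (fun t : ℝ => ((j * t : ℝ) : ℂ) * Complex.I) ((j : ℂ) * Complex.I) t := by
      have h0 : HasDerivAt (fun t : ℝ => (j : ℝ) * t) ((j : ℝ)) t := by
        simpa using (hasDerivAt_id t).const_mul (j : ℝ)
      have := (h0.ofReal_comp).mul_const Complex.I
      simpa using this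
    have h2 := h1.cexp
    have e : Complex.exp (((j * t : ℝ) : ℂ) * Complex.I) * ((j : ℂ) * Complex.I) =
        (j : ℂ) * Complex.I * E j t := by
      simp only [E]; ring
    rw [e] at h2
    exact h2
  refine ⟨_, hd 0, ?_⟩
  have hE0 : E j 0 = 1 := by simp [E]
  rw [hE0]
  have := SS_eq m hm α hα j hj
  unfold SS at this
  rw [this]
  ring

lemma PP_of_mem (m : ℕ) (hm : 0 < m) (α : ℝ) (hα : Real.sin α ≠ 0) (T : ℝ → ℂ) (hT : T ∈ V m) :
    PP m α T := by
  induction hT using Submodule.span_induction with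
  | mem x hx =>
    obtain ⟨j, hj, rfl⟩ := hx
    exact PP_E m hm α hα j hj
  | zero =>
    refine ⟨0, hasDerivAt_const _ _, ?_⟩
    simp
  | add f g _ _ ihf ihg =>
    obtain ⟨Df, hf1, hf3⟩ := ihf
    obtain ⟨Dg, hg1, hg3⟩ := ihg
    refine ⟨Df + Dg, hf1.add hg1, ?_⟩
    simp only [Pi.add_apply, mul_add, Finset.sum_add_distrib]
    rw [hf3, hg3]
    ring
  | smul a f _ ihf =>
    obtain ⟨Df, hf1, hf3⟩ := ihf
    refine ⟨a * Df, hf1.const_mul a, ?_⟩
    have : ∀ k ∈ range (2 * m), (((-1) ^ k * wg m α k : ℝ) : ℂ) * (a • f) (nd m α k) =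
        a * ((((-1) ^ k * wg m α k : ℝ) : ℂ) * f (nd m α k)) := by
      intro k _
      simp only [Pi.smul_apply, smul_eq_mul]
      ring
    rw [Finset.sum_congr rfl this, ← Finset.mul_sum, hf3]
    simp only [Pi.smul_apply, smul_eq_mul]
    ring

/-- Bernstein and Szego -/
lemma szego {m : ℕ} (hm : 0 < m) (T : ℝ → ℝ) (D M : ℝ)
    (hT : (fun t => (T t : ℂ)) ∈ V m) (h1 : HasDerivAt T D 0)
    (hM : ∀ t, |T t| ≤ M) (α : ℝ) :
    |Real.cos α * (m * T 0) + Real.sin α * D| ≤ m * M := by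
  have hm0 : (0 : ℝ) ≤ m := Nat.cast_nonneg m
  by_cases hα : Real.sin α = 0
  · have hc : |Real.cos α| ≤ 1 := Real.abs_cos_le_one α
    rw [hα, zero_mul, add_zero, abs_mul, abs_mul, Nat.abs_cast]
    have h2 : (m : ℝ) * |T 0| ≤ m * M := mul_le_mul_of_nonneg_left (hM 0) hm0
    have h3 : 0 ≤ (m : ℝ) * |T 0| := by positivity
    nlinarith [abs_nonneg (Real.cos α)]
  · obtain ⟨DS, hS1, hS3⟩ := PP_of_mem m hm α hα _ hT
    have e1 : DS = (D : ℂ) := hS1.unique (h1.ofReal_comp)
    rw [e1] at hS3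
    have h2 : ∑ k ∈ range (2 * m), (-1) ^ k * wg m α k * T (nd m α k) =
        Real.cos α * (m * T 0) + Real.sin α * D := by
      have : ((∑ k ∈ range (2 * m), (-1) ^ k * wg m α k * T (nd m α k) : ℝ) : ℂ) =
          ((Real.cos α * (m * T 0) + Real.sin α * D : ℝ) : ℂ) := by
        have e : ((∑ k ∈ range (2 * m), (-1) ^ k * wg m α k * T (nd m α k) : ℝ) : ℂ) =
            ∑ k ∈ range (2 * m), (((-1) ^ k * wg m α k : ℝ) : ℂ) * ((T (nd m α k) : ℝ) : ℂ) := by
          push_cast
          rfl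
        rw [e, hS3]
        push_cast
        ring
      exact_mod_cast this
    rw [← h2]
    calc |∑ k ∈ range (2 * m), (-1) ^ k * wg m α k * T (nd m α k)|
        ≤ ∑ k ∈ range (2 * m), |(-1) ^ k * wg m α k * T (nd m α k)| :=
          Finset.abs_sum_le_sum_abs _ _
      _ ≤ ∑ k ∈ range (2 * m), wg m α k * M := by
          apply Finset.sum_le_sum
          intro k _
          rw [abs_mul, abs_mul, abs_pow, abs_neg, abs_one, one_pow, one_mul,
            abs_of_pos (wg_pos m hm α hα k)]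
          exact mul_le_mul_of_nonneg_left (hM _) (wg_pos m hm α hα k).le
      _ = m * M := by rw [← Finset.sum_mul, sum_wg m hm α hα]

end Pool.Agent.Helper88.PLap
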