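import Mathlib
import Pool.Agent.Helper46.PLapEnd
import Pool.Agent.Helper88.PLap.Szego

set_option autoImplicit false

open Finset

namespace Pool.Agent.Helper88.PLap

open Pool.Agent.Helper46.PLapTrig Pool.Agent.Helper46.PLapMax

variable {n : ℕ}

lemma dp_zero {w : Fin n → ℝ} (h0 : dp w w = 0) : w = 0 := by
  have h1 := (Finset.sum_eq_zero_iff_of_nonneg
    (fun i _ => mul_self_nonneg (w i))).mp h0
  funext i
  exact mul_self_eq_zero.mp (h1 i (Finset.mem_univ i))

/-- directional bound for the gradient -/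
lemma grad_bd {m : ℕ} {u : MvPolynomial (Fin n) ℝ} (hu : u.IsHomogeneous m) (hm : 0 < m)
    {M : ℝ} (hM : ∀ x, dp x x = 1 → |MvPolynomial.eval x u| ≤ M)
    (x y : Fin n → ℝ) (hx : dp x x = 1) (hy : dp y y = 1) :
    |∑ i, gr u x i * y i| ≤ m * M := by
  have hm0 : (0 : ℝ) ≤ m := Nat.cast_nonneg m
  set a := dp x y with ha
  set w : Fin n → ℝ := fun i => y i - a * x i with hw
  have hxw : dp x w = 0 := by
    have : dp x w = dp x y - a * dp x x := by
      unfold dp
      rw [Finset.mul_sum, ← Finset.sum_sub_distrib]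
      apply Finset.sum_congr rfl
      intro i _
      simp only [hw]
      ring
    rw [this, hx, ← ha]
    ring
  have hww : dp w w = 1 - a ^ 2 := by
    have : dp w w = dp y y - 2 * a * dp x y + a ^ 2 * dp x x := by
      unfold dp
      rw [Finset.mul_sum, Finset.mul_sum, ← Finset.sum_sub_distrib, ← Finset.sum_add_distrib]
      apply Finset.sum_congr rfl
      intro i _
      simp only [hw]
      ring
    rw [this, hx, hy, ← ha]
    ring
  have ha1 : a ^ 2 ≤ 1 := by
    have := dp_self_nonneg w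
    linarith
  have hal : -1 ≤ a := by nlinarith
  have hau : a ≤ 1 := by nlinarith
  have hsplit : ∑ i, gr u x i * y i =
      a * (m * MvPolynomial.eval x u) + ∑ i, gr u x i * w i := by
    rw [← euler u hu x, Finset.mul_sum, ← Finset.sum_add_distrib]
    apply Finset.sum_congr rfl
    intro i _
    simp only [hw]
    ring
  rcases (dp_self_nonneg w).eq_or_lt with h0 | h0
  · have hw0 := dp_zero h0.symm
    rw [hsplit, hw0]
    simp only [Pi.zero_apply, mul_zero, Finset.sum_const_zero, add_zero]
    rw [abs_mul, abs_mul, Nat.abs_cast]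
    have h2 : (m : ℝ) * |MvPolynomial.eval x u| ≤ m * M :=
      mul_le_mul_of_nonneg_left (hM x hx) hm0
    have h3 : 0 ≤ (m : ℝ) * |MvPolynomial.eval x u| := by positivity
    have h4 : |a| ≤ 1 := abs_le.mpr ⟨hal, hau⟩
    nlinarith [abs_nonneg a]
  · set r := Real.sqrt (dp w w) with hr
    have hr0 : 0 < r := Real.sqrt_pos.mpr h0
    have hr2 : r ^ 2 = dp w w := Real.sq_sqrt h0.le
    set v : Fin n → ℝ := fun i => r⁻¹ * w i with hv
    have hvv : dp v v = 1 := by
      have : dp v v = r⁻¹ ^ 2 * dp w w := by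
        unfold dp
        rw [Finset.mul_sum]
        apply Finset.sum_congr rfl
        intro i _
        simp only [hv]
        ring
      rw [this, ← hr2]
      field_simp
    have hxv : dp x v = 0 := by
      have : dp x v = r⁻¹ * dp x w := by
        unfold dp
        rw [Finset.mul_sum]
        apply Finset.sum_congr rfl
        intro i _
        simp only [hv]
        ring
      rw [this, hxw, mul_zero]
    have h1 := (circle_deriv u x v).1 0
    simp only [Real.cos_zero, Real.sin_zero, one_mul, zero_mul, add_zero, neg_zero,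
      zero_add] at h1
    have h2 := szego hm _ _ M (V_eval u hu x v) h1
      (fun t => hM _ (dp_circle x v hx hvv hxv t)) (Real.arccos a)
    simp only [Real.cos_zero, Real.sin_zero, one_mul, zero_mul, add_zero] at h2
    rw [Real.cos_arccos hal hau, Real.sin_arccos, ← hww, ← hr] at h2
    have h3 : r * ∑ i, gr u x i * v i = ∑ i, gr u x i * w i := by
      rw [Finset.mul_sum]
      apply Finset.sum_congr rfl
      intro i _
      simp only [hv]
      field_simp
    rw [h3, ← hsplit] at h2
    exact h2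

/-- directional derivative as a polynomial -/
noncomputable def DD (y : Fin n → ℝ) (u : MvPolynomial (Fin n) ℝ) : MvPolynomial (Fin n) ℝ :=
  ∑ j, MvPolynomial.C (y j) * MvPolynomial.pderiv j u

lemma DD_hom {m : ℕ} {u : MvPolynomial (Fin n) ℝ} (hu : u.IsHomogeneous m) (y : Fin n → ℝ) :
    (DD y u).IsHomogeneous (m - 1) := by
  unfold DD
  apply MvPolynomial.IsHomogeneous.sum
  intro j _
  have h1 := (MvPolynomial.isHomogeneous_C (Fin n) (y j)).mul (hu.pderiv (i := j))
  rwa [zero_add] at h1

lemma DD_eval (y : Fin n → ℝ) (u : MvPolynomial (Fin n) ℝ) (x : Fin n → ℝ) :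
    MvPolynomial.eval x (DD y u) = ∑ j, gr u x j * y j := by
  unfold DD gr
  rw [map_sum]
  apply Finset.sum_congr rfl
  intro j _
  rw [map_mul, MvPolynomial.eval_C]
  ring

lemma DD_pd (y : Fin n → ℝ) (u : MvPolynomial (Fin n) ℝ) (i : Fin n) :
    MvPolynomial.pderiv i (DD y u) = DD y (MvPolynomial.pderiv i u) := by
  unfold DD
  rw [map_sum]
  apply Finset.sum_congr rfl
  intro j _
  rw [MvPolynomial.pderiv_mul, MvPolynomial.pderiv_C, zero_mul, zero_add, pd_comm]

lemma DD_gr (y : Fin n → ℝ) (u : MvPolynomial (Fin n) ℝ) (x : Fin n → ℝ) (i : Fin n) :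
    gr (DD y u) x i = ∑ j, hs u x j i * y j := by
  unfold gr
  rw [DD_pd, DD_eval]
  rfl

/-- Hessian bound -/
lemma hess_bd {m : ℕ} {u : MvPolynomial (Fin n) ℝ} (hu : u.IsHomogeneous m) (hm : 2 ≤ m)
    {M : ℝ} (hM : ∀ x, dp x x = 1 → |MvPolynomial.eval x u| ≤ M)
    (x y : Fin n → ℝ) (hx : dp x x = 1) (hy : dp y y = 1) :
    |Q u x y| ≤ m * (m - 1) * M := by
  have h1 : ∀ z, dp z z = 1 → |MvPolynomial.eval z (DD y u)| ≤ m * M := by
    intro z hz
    rw [DD_eval]
    exact grad_bd hu (by omega) hM z y hz hy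
  have h2 := grad_bd (DD_hom hu y) (by omega) h1 x y hx hy
  have h3 : ∑ i, gr (DD y u) x i * y i = Q u x y := by
    unfold Q
    apply Finset.sum_congr rfl
    intro i _
    rw [DD_gr, Finset.sum_mul]
    apply Finset.sum_congr rfl
    intro j _
    rw [hs_symm u x j i]
    ring
  rw [h3, Nat.cast_sub (by omega)] at h2
  push_cast at h2
  calc |Q u x y| ≤ ((m : ℝ) - 1) * (m * M) := h2
    _ = m * (m - 1) * M := by ring

lemma hess_bd' {m : ℕ} {u : MvPolynomial (Fin n) ℝ} (hu : u.IsHomogeneous m) (hm : 2 ≤ m)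
    {M : ℝ} (hM : ∀ x, dp x x = 1 → |MvPolynomial.eval x u| ≤ M)
    (x y : Fin n → ℝ) (hx : dp x x = 1) :
    |Q u x y| ≤ m * (m - 1) * M * dp y y := by
  rcases (dp_self_nonneg y).eq_or_lt with h0 | h0
  · have hv := dp_zero h0.symm
    subst hv
    simp [Q, dp]
  · set r := Real.sqrt (dp y y) with hr
    have hr0 : 0 < r := Real.sqrt_pos.mpr h0
    have hr2 : r ^ 2 = dp y y := Real.sq_sqrt h0.le
    set w : Fin n → ℝ := fun i => r⁻¹ * y i with hw
    have hww : dp w w = 1 := by
      have : dp w w = r⁻¹ ^ 2 * dp y y := by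
        unfold dp
        rw [Finset.mul_sum]
        apply Finset.sum_congr rfl
        intro i _
        simp only [hw]
        ring
      rw [this, ← hr2]
      field_simp
    have h1 := hess_bd hu hm hM x w hx hww
    have h2 : Q u x w = r⁻¹ ^ 2 * Q u x y := Q_smul u x y r⁻¹
    have h3 : Q u x y = r ^ 2 * Q u x w := by
      rw [h2]
      field_simp
    rw [h3, abs_mul, abs_of_pos (by positivity : (0 : ℝ) < r ^ 2), hr2]
    calc dp y y * |Q u x w| ≤ dp y y * (m * (m - 1) * M) :=
          mul_le_mul_of_nonneg_left h1 h0.le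
      _ = m * (m - 1) * M * dp y y := by ring

end Pool.Agent.Helper88.PLap
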