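import Mathlib
import Pool.Agent.Helper88.PLap.Grad

set_option autoImplicit false

open Finset

namespace Pool.Agent.Helper88.PLap

open Pool.Agent.Helper46.PLapTrig Pool.Agent.Helper46.PLapMax

variable {n : ℕ}

lemma DD_sum (y : Fin n → ℝ) {ι : Type*} (s : Finset ι) (f : ι → MvPolynomial (Fin n) ℝ) :
    DD y (∑ i ∈ s, f i) = ∑ i ∈ s, DD y (f i) := by
  unfold DD
  rw [Finset.sum_comm]
  apply Finset.sum_congr rfl
  intro j _
  rw [map_sum, Finset.mul_sum]

lemma DD_mul (y : Fin n → ℝ) (p q : MvPolynomial (Fin n) ℝ) :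
    DD y (p * q) = DD y p * q + p * DD y q := by
  unfold DD
  rw [Finset.sum_mul, Finset.mul_sum, ← Finset.sum_add_distrib]
  apply Finset.sum_congr rfl
  intro j _
  rw [MvPolynomial.pderiv_mul]
  ring

lemma DD_add (y : Fin n → ℝ) (p q : MvPolynomial (Fin n) ℝ) :
    DD y (p + q) = DD y p + DD y q := by
  unfold DD
  rw [← Finset.sum_add_distrib]
  apply Finset.sum_congr rfl
  intro j _
  rw [map_add]
  ring

lemma DD_C (y : Fin n → ℝ) (a : ℝ) : DD y (MvPolynomial.C a) = 0 := by
  unfold DD
  apply Finset.sum_eq_zero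
  intro j _
  rw [MvPolynomial.pderiv_C, mul_zero]

lemma ev2 (y c : Fin n → ℝ) (p q : MvPolynomial (Fin n) ℝ) :
    MvPolynomial.eval c (DD y (DD y (p * q))) =
      MvPolynomial.eval c (DD y (DD y p)) * MvPolynomial.eval c q +
      2 * (MvPolynomial.eval c (DD y p) * MvPolynomial.eval c (DD y q)) +
      MvPolynomial.eval c p * MvPolynomial.eval c (DD y (DD y q)) := by
  simp only [DD_mul, DD_add, map_add, map_mul]
  ring

lemma ev3 (y c : Fin n → ℝ) (p q r : MvPolynomial (Fin n) ℝ) :
    MvPolynomial.eval c (DD y (DD y (p * q * r))) =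
      MvPolynomial.eval c (DD y (DD y p)) * MvPolynomial.eval c q * MvPolynomial.eval c r +
      MvPolynomial.eval c p * MvPolynomial.eval c (DD y (DD y q)) * MvPolynomial.eval c r +
      2 * (MvPolynomial.eval c (DD y p) * MvPolynomial.eval c (DD y q) *
        MvPolynomial.eval c r) +
      2 * (MvPolynomial.eval c (DD y p) * MvPolynomial.eval c q *
        MvPolynomial.eval c (DD y r)) +
      2 * (MvPolynomial.eval c p * MvPolynomial.eval c (DD y q) *
        MvPolynomial.eval c (DD y r)) +
      MvPolynomial.eval c p * MvPolynomial.eval c q * MvPolynomial.eval c (DD y (DD y r)) := by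
  simp only [DD_mul, DD_add, map_add, map_mul]
  ring

lemma hom_zero_pd {u : MvPolynomial (Fin n) ℝ} (hu : u.IsHomogeneous 0) (i : Fin n) :
    MvPolynomial.pderiv i u = 0 := by
  have h1 : u.totalDegree = 0 := by
    have := hu.totalDegree_le
    omega
  rw [MvPolynomial.totalDegree_eq_zero_iff_eq_C] at h1
  rw [h1, MvPolynomial.pderiv_C]

lemma euler2' {k : ℕ} (u : MvPolynomial (Fin n) ℝ) (hu : u.IsHomogeneous k)
    (x : Fin n → ℝ) (j : Fin n) :
    ∑ i, hs u x i j * x i = (k - 1) * gr u x j := by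
  rcases Nat.eq_zero_or_pos k with h0 | h0
  · subst h0
    simp only [hs, gr, hom_zero_pd hu, map_zero, zero_mul, mul_zero, Finset.sum_const_zero]
  · exact euler2 h0 u hu x j

lemma second_id {m : ℕ} (hm : 2 ≤ m) {u κ : MvPolynomial (Fin n) ℝ} {M : ℝ} {c v : Fin n → ℝ}
    (h : IsMax u m M c) (hκ : IsMax κ (m - 2) M c)
    (hF : ∑ i, ∑ j, MvPolynomial.pderiv i u * MvPolynomial.pderiv j u *
      MvPolynomial.pderiv i (MvPolynomial.pderiv j u) =
      MvPolynomial.C ((m : ℝ) * (m - 1)) * (κ * ∑ i, MvPolynomial.pderiv i u *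
        MvPolynomial.pderiv i u))
    (hv : dp v v = 1) (hcv : dp c v = 0) (l : ℝ)
    (hev : ∀ i, ∑ j, hs u c i j * v j = l * v i) :
    2 * (m * M * (m * (m - 1) * M) * ((m - 2) * l)) + 2 * l ^ 3 +
      4 * (l ^ 2 * m * M * (m - 2)) + m ^ 2 * M ^ 2 * ((m - 2) * (m - 3) * l) =
      m * (m - 1) * (Q κ c v * (m ^ 2 * M ^ 2) + M * (2 * l ^ 2 + 2 * (m * M * ((m - 2) * l)))) := by
  have hmr : (2 : ℝ) ≤ m := by exact_mod_cast hm
  have hm1 : ((m - 1 : ℕ) : ℝ) = (m : ℝ) - 1 := by
    rw [Nat.cast_sub (by omega)]; simp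
  have hm2 : ((m - 1 - 1 : ℕ) : ℝ) = (m : ℝ) - 2 := by
    rw [show m - 1 - 1 = m - 2 by omega, Nat.cast_sub hm]; simp
  have hm2' : ((m - 2 : ℕ) : ℝ) = (m : ℝ) - 2 := by
    rw [Nat.cast_sub hm]; simp
  set W := DD v (DD v u) with hW
  have hUh := DD_hom h.hom v
  have hWh : W.IsHomogeneous (m - 1 - 1) := DD_hom hUh v
  -- basic values
  have ha : ∀ i, MvPolynomial.eval c (MvPolynomial.pderiv i u) = m * M * c i := h.grad_eq
  have hb : ∀ i, MvPolynomial.eval c (DD v (MvPolynomial.pderiv i u)) = l * v i := by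
    intro i
    rw [DD_eval, ← hev i]
    apply Finset.sum_congr rfl
    intro j _
    rw [hs_symm u c i j]
    rfl
  have hgD : ∀ i, gr (DD v u) c i = l * v i := by
    intro i
    rw [← hb i, gr, DD_pd]
  have he : ∀ i, MvPolynomial.eval c (DD v (DD v (MvPolynomial.pderiv i u))) = gr W c i := by
    intro i
    rw [gr, hW, DD_pd, DD_pd]
  have hH1 : ∀ i j, MvPolynomial.eval c (DD v (MvPolynomial.pderiv i (MvPolynomial.pderiv j u)))
      = hs (DD v u) c i j := by
    intro i j
    rw [hs, DD_pd, DD_pd]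
  have hH2 : ∀ i j,
      MvPolynomial.eval c (DD v (DD v (MvPolynomial.pderiv i (MvPolynomial.pderiv j u))))
      = hs W c i j := by
    intro i j
    rw [hs, hW, DD_pd, DD_pd, DD_pd, DD_pd]
  have hWc : MvPolynomial.eval c W = l := by
    rw [hW, DD_eval]
    have : ∀ j, gr (DD v u) c j * v j = l * (v j * v j) := by
      intro j
      rw [hgD]
      ring
    rw [Finset.sum_congr rfl (fun j _ => this j), ← Finset.mul_sum]
    unfold dp at hv
    rw [hv, mul_one]
  have hHc : ∀ i, ∑ j, hs u c i j * c j = m * (m - 1) * M * c i := by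
    intro i
    have := euler2' u h.hom c i
    rw [h.grad_eq i] at this
    calc ∑ j, hs u c i j * c j = ∑ j, hs u c j i * c j := by
          apply Finset.sum_congr rfl
          intro j _
          rw [hs_symm]
      _ = (m - 1) * (m * M * c i) := this
      _ = _ := by ring
  have hWe : ∑ i, gr W c i * c i = (m - 2) * l := by
    rw [euler W hWh c, hWc, hm2]
  -- the six sums
  have s1 : ∑ i, ∑ j, gr W c i * (m * M * c j) * hs u c i j =
      m * M * (m * (m - 1) * M) * ((m - 2) * l) := by
    rw [← hWe, Finset.mul_sum]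
    apply Finset.sum_congr rfl
    intro i _
    have : ∑ j, gr W c i * (m * M * c j) * hs u c i j =
        gr W c i * (m * M) * ∑ j, hs u c i j * c j := by
      rw [Finset.mul_sum]
      apply Finset.sum_congr rfl
      intro j _
      ring
    rw [this, hHc i]
    ring
  have s2 : ∑ i, ∑ j, (m * M * c i) * gr W c j * hs u c i j =
      m * M * (m * (m - 1) * M) * ((m - 2) * l) := by
    rw [Finset.sum_comm, ← s1]
    apply Finset.sum_congr rfl
    intro i _
    apply Finset.sum_congr rfl
    intro j _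
    rw [hs_symm u c j i]
    ring
  have s3 : ∑ i, ∑ j, (l * v i) * (l * v j) * hs u c i j = l ^ 3 := by
    have : ∀ i, ∑ j, (l * v i) * (l * v j) * hs u c i j = l ^ 3 * (v i * v i) := by
      intro i
      have : ∑ j, (l * v i) * (l * v j) * hs u c i j = l ^ 2 * v i * ∑ j, hs u c i j * v j := by
        rw [Finset.mul_sum]
        apply Finset.sum_congr rfl
        intro j _
        ring
      rw [this, hev i]
      ring
    rw [Finset.sum_congr rfl (fun i _ => this i), ← Finset.mul_sum]
    unfold dp at hv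
    rw [hv, mul_one]
  have hDc : ∀ i, ∑ j, hs (DD v u) c i j * c j = (m - 2) * (l * v i) := by
    intro i
    have := euler2' (DD v u) hUh c i
    rw [hgD, hm1] at this
    calc ∑ j, hs (DD v u) c i j * c j = ∑ j, hs (DD v u) c j i * c j := by
          apply Finset.sum_congr rfl
          intro j _
          rw [hs_symm]
      _ = (m - 1 - 1) * (l * v i) := this
      _ = _ := by ring
  have s4 : ∑ i, ∑ j, (l * v i) * (m * M * c j) * hs (DD v u) c i j =
      l ^ 2 * m * M * (m - 2) := by
    have : ∀ i, ∑ j, (l * v i) * (m * M * c j) * hs (DD v u) c i j =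
        l ^ 2 * m * M * (m - 2) * (v i * v i) := by
      intro i
      have : ∑ j, (l * v i) * (m * M * c j) * hs (DD v u) c i j =
          l * v i * (m * M) * ∑ j, hs (DD v u) c i j * c j := by
        rw [Finset.mul_sum]
        apply Finset.sum_congr rfl
        intro j _
        ring
      rw [this, hDc i]
      ring
    rw [Finset.sum_congr rfl (fun i _ => this i), ← Finset.mul_sum]
    unfold dp at hv
    rw [hv, mul_one]
  have s5 : ∑ i, ∑ j, (m * M * c i) * (l * v j) * hs (DD v u) c i j =
      l ^ 2 * m * M * (m - 2) := by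
    rw [Finset.sum_comm, ← s4]
    apply Finset.sum_congr rfl
    intro i _
    apply Finset.sum_congr rfl
    intro j _
    rw [hs_symm (DD v u) c j i]
    ring
  have s6 : ∑ i, ∑ j, (m * M * c i) * (m * M * c j) * hs W c i j =
      m ^ 2 * M ^ 2 * ((m - 2) * (m - 3) * l) := by
    have : ∀ i, ∑ j, (m * M * c i) * (m * M * c j) * hs W c i j =
        m ^ 2 * M ^ 2 * (m - 3) * (gr W c i * c i) := by
      intro i
      have h1 : ∑ j, (m * M * c i) * (m * M * c j) * hs W c i j =
          m ^ 2 * M ^ 2 * c i * ∑ j, hs W c j i * c j := by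
        rw [Finset.mul_sum]
        apply Finset.sum_congr rfl
        intro j _
        rw [hs_symm W c i j]
        ring
      rw [h1, euler2' W hWh c i, hm2]
      ring
    rw [Finset.sum_congr rfl (fun i _ => this i), ← Finset.mul_sum, hWe]
    ring
  -- left side
  have hL : MvPolynomial.eval c (DD v (DD v (∑ i, ∑ j, MvPolynomial.pderiv i u *
      MvPolynomial.pderiv j u * MvPolynomial.pderiv i (MvPolynomial.pderiv j u)))) =
      2 * (m * M * (m * (m - 1) * M) * ((m - 2) * l)) + 2 * l ^ 3 +
      4 * (l ^ 2 * m * M * (m - 2)) + m ^ 2 * M ^ 2 * ((m - 2) * (m - 3) * l) := by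
    simp only [DD_sum, map_sum]
    have e : ∀ i j, MvPolynomial.eval c (DD v (DD v (MvPolynomial.pderiv i u *
        MvPolynomial.pderiv j u * MvPolynomial.pderiv i (MvPolynomial.pderiv j u)))) =
        gr W c i * (m * M * c j) * hs u c i j + (m * M * c i) * gr W c j * hs u c i j +
        2 * ((l * v i) * (l * v j) * hs u c i j) +
        2 * ((l * v i) * (m * M * c j) * hs (DD v u) c i j) +
        2 * ((m * M * c i) * (l * v j) * hs (DD v u) c i j) +
        (m * M * c i) * (m * M * c j) * hs W c i j := by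
      intro i j
      rw [ev3, he, he, hb, hb, ha, ha, hH1, hH2]
      rfl
    simp only [e, Finset.sum_add_distrib, ← Finset.mul_sum]
    rw [s1, s2, s3, s4, s5, s6]
    ring
  -- right side
  have hN : MvPolynomial.eval c (∑ i, MvPolynomial.pderiv i u * MvPolynomial.pderiv i u) =
      m ^ 2 * M ^ 2 := by
    rw [map_sum]
    have : ∀ i, MvPolynomial.eval c (MvPolynomial.pderiv i u * MvPolynomial.pderiv i u) =
        m ^ 2 * M ^ 2 * (c i * c i) := by
      intro i
      rw [map_mul, ha]
      ring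
    rw [Finset.sum_congr rfl (fun i _ => this i), ← Finset.mul_sum]
    have h1 := h.unit
    unfold dp at h1
    rw [h1, mul_one]
  have hN2 : MvPolynomial.eval c (DD v (DD v (∑ i, MvPolynomial.pderiv i u *
      MvPolynomial.pderiv i u))) = 2 * l ^ 2 + 2 * (m * M * ((m - 2) * l)) := by
    simp only [DD_sum, map_sum]
    have e : ∀ i, MvPolynomial.eval c (DD v (DD v (MvPolynomial.pderiv i u *
        MvPolynomial.pderiv i u))) = 2 * l ^ 2 * (v i * v i) +
        2 * (m * M) * (gr W c i * c i) := by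
      intro i
      rw [ev2, he, hb, ha]
      ring
    rw [Finset.sum_congr rfl (fun i _ => e i), Finset.sum_add_distrib, ← Finset.mul_sum,
      ← Finset.mul_sum, hWe]
    unfold dp at hv
    rw [hv]
    ring
  have hκ1 : MvPolynomial.eval c (DD v κ) = 0 := by
    rw [DD_eval, hκ.grad v, hcv, mul_zero]
  have hκ2 : MvPolynomial.eval c (DD v (DD v κ)) = Q κ c v := by
    rw [DD_eval]
    unfold Q
    apply Finset.sum_congr rfl
    intro i _
    rw [DD_gr, Finset.sum_mul]
    apply Finset.sum_congr rfl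
    intro j _
    rw [hs_symm κ c j i]
    ring
  have hR : MvPolynomial.eval c (DD v (DD v (MvPolynomial.C ((m : ℝ) * (m - 1)) *
      (κ * ∑ i, MvPolynomial.pderiv i u * MvPolynomial.pderiv i u)))) =
      m * (m - 1) * (Q κ c v * (m ^ 2 * M ^ 2) +
        M * (2 * l ^ 2 + 2 * (m * M * ((m - 2) * l)))) := by
    rw [ev2, DD_C, ev2, hN, hN2, hκ1, hκ2, hκ.val, MvPolynomial.eval_C]
    simp only [map_zero, zero_mul, mul_zero, zero_add, add_zero]
    have : DD v (0 : MvPolynomial (Fin n) ℝ) = 0 := by
      unfold DD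
      simp
    rw [this]
    simp only [map_zero, zero_mul, zero_add]
  rw [← hL, ← hR, hF]

end Pool.Agent.Helper88.PLap
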