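import Mathlib
import Pool.Agent.Helper46.PLapMax

set_option autoImplicit false

open Finset

namespace Pool.Agent.Helper88.PLap

open Pool.Agent.Helper46.PLapMax

/-- a symmetric matrix with a unit eigenvector of positive eigenvalue and small trace has a very
negative eigenvalue, with eigenvector orthogonal to the given one -/
lemma eig {n : ℕ} (hn : 2 ≤ n) (H : Fin n → Fin n → ℝ) (hH : ∀ i j, H i j = H j i)
    (c : Fin n → ℝ) (hc : dp c c = 1) (μ : ℝ) (hμ : 0 < μ)
    (hHc : ∀ i, ∑ j, H i j * c j = μ * c i) (s : ℝ) (hs : 0 < s)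
    (htr : ∑ i, H i i = μ - s * (n - 1)) :
    ∃ (w : Fin n → ℝ) (r : ℝ), dp w w = 1 ∧ dp c w = 0 ∧
      (∀ i, ∑ j, H i j * w j = r * w i) ∧ r ≤ -s := by
  classical
  let A : Matrix (Fin n) (Fin n) ℝ := Matrix.of H
  have hA : A.IsHermitian := by
    ext i j
    simp [A, Matrix.conjTranspose_apply, hH j i]
  let lam := hA.eigenvalues
  let b := hA.eigenvectorBasis
  have hb : ∀ k i, ∑ j, H i j * (b k) j = lam k * (b k) i := by
    intro k i
    have := congrFun (hA.mulVec_eigenvectorBasis k) i
    simpa [A, Matrix.mulVec, dotProduct] using this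
  have hbu : ∀ k, dp (b k).ofLp (b k).ofLp = 1 := by
    intro k
    have h1 := b.orthonormal.1 k
    have h2 : ‖b k‖ ^ 2 = 1 := by rw [h1]; norm_num
    rw [EuclideanSpace.real_norm_sq_eq] at h2
    unfold dp
    rw [← h2]
    apply Finset.sum_congr rfl
    intro i _
    ring
  have hor : ∀ (k : Fin n) (y : Fin n → ℝ) (ν : ℝ), (∀ i, ∑ j, H i j * y j = ν * y i) →
      lam k ≠ ν → dp y (b k).ofLp = 0 := by
    intro k y ν hy hne
    have h1 : ∑ i, (∑ j, H i j * y j) * (b k) i = ν * dp y (b k).ofLp := by
      unfold dp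
      rw [Finset.mul_sum]
      apply Finset.sum_congr rfl
      intro i _
      rw [hy i]
      ring
    have h2 : ∑ i, (∑ j, H i j * y j) * (b k) i = lam k * dp y (b k).ofLp := by
      have e1 : ∑ i, (∑ j, H i j * y j) * (b k) i = ∑ j, y j * ∑ i, H j i * (b k) i := by
        have : ∀ i, (∑ j, H i j * y j) * (b k) i = ∑ j, H i j * y j * (b k) i := by
          intro i
          rw [Finset.sum_mul]
        rw [Finset.sum_congr rfl (fun i _ => this i), Finset.sum_comm]
        apply Finset.sum_congr rfl
        intro j _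
        rw [Finset.mul_sum]
        apply Finset.sum_congr rfl
        intro i _
        rw [hH j i]
        ring
      rw [e1]
      unfold dp
      rw [Finset.mul_sum]
      apply Finset.sum_congr rfl
      intro j _
      rw [hb k j]
      ring
    have h3 : (lam k - ν) * dp y (b k).ofLp = 0 := by
      rw [sub_mul]
      linarith
    rcases mul_eq_zero.mp h3 with h | h
    · exact absurd (sub_eq_zero.mp h) hne
    · exact h
  -- some eigenvalue equals μ
  have hex : ∃ k, lam k = μ := by
    by_contra hno
    push Not at hno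
    have hall : ∀ k, dp c (b k).ofLp = 0 := fun k => hor k c μ hHc (hno k)
    have h1 : (WithLp.toLp 2 c : EuclideanSpace ℝ (Fin n)) = 0 := by
      rw [← b.sum_repr (WithLp.toLp 2 c)]
      apply Finset.sum_eq_zero
      intro k _
      have h2 : b.repr (WithLp.toLp 2 c) k = 0 := by
        rw [b.repr_apply_apply, EuclideanSpace.inner_eq_star_dotProduct]
        have := hall k
        unfold dp at this
        simpa [dotProduct] using this
      rw [h2, zero_smul]
    have h3 : c = 0 := by
      funext i
      have := congrArg (fun z : EuclideanSpace ℝ (Fin n) => z i) h1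
      simpa using this
    rw [h3] at hc
    simp [dp] at hc
  obtain ⟨k0, hk0⟩ := hex
  have : Nonempty (Fin n) := ⟨⟨0, by omega⟩⟩
  obtain ⟨k1, hk1⟩ := Finite.exists_min lam
  have htr2 : ∑ k, lam k = μ - s * (n - 1) := by
    rw [← htr]
    have := hA.trace_eq_sum_eigenvalues
    simp only [Matrix.trace, Matrix.diag, A, Matrix.of_apply] at this
    rw [this]
    simp [lam, A]
  have hle : lam k1 * (n - 1) ≤ -(s * (n - 1)) := by
    rw [← Finset.add_sum_erase _ _ (Finset.mem_univ k0), hk0] at htr2
    have h1 : ((Finset.univ.erase k0).card : ℝ) * lam k1 ≤ ∑ k ∈ Finset.univ.erase k0, lam k := by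
      rw [← nsmul_eq_mul]
      exact Finset.card_nsmul_le_sum _ _ _ (fun k _ => hk1 k)
    rw [Finset.card_erase_of_mem (Finset.mem_univ k0), Finset.card_univ, Fintype.card_fin,
      Nat.cast_sub (by omega)] at h1
    push_cast at h1
    linarith
  have hn1 : (0 : ℝ) < (n : ℝ) - 1 := by
    have : (2 : ℝ) ≤ n := by exact_mod_cast hn
    linarith
  have hle2 : lam k1 ≤ -s := by
    by_contra hcon
    push Not at hcon
    have := mul_lt_mul_of_pos_right hcon hn1
    linarith
  refine ⟨(b k1).ofLp, lam k1, hbu k1, ?_, hb k1, hle2⟩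
  apply hor k1 c μ hHc
  intro h
  linarith

end Pool.Agent.Helper88.PLap
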