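import Mathlib
import Pool.Agent.Helper88.PLap.Deriv
import Pool.Agent.Helper88.PLap.Eig

set_option autoImplicit false

open Finset

namespace Pool.Agent.Helper88.PLap

open Pool.Agent.Helper46.PLapTrig Pool.Agent.Helper46.PLapMax

variable {n : ℕ}

noncomputable def kap (u : MvPolynomial (Fin n) ℝ) (m : ℕ) (p : ℝ) : MvPolynomial (Fin n) ℝ :=
  MvPolynomial.C (-(1 / ((p - 2) * (m * (m - 1))))) *
    ∑ i, MvPolynomial.pderiv i (MvPolynomial.pderiv i u)

lemma kap_hom {m : ℕ} {u : MvPolynomial (Fin n) ℝ} (hu : u.IsHomogeneous m) (p : ℝ) :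
    (kap u m p).IsHomogeneous (m - 2) := by
  unfold kap
  have h1 : (∑ i, MvPolynomial.pderiv i (MvPolynomial.pderiv i u)).IsHomogeneous (m - 2) := by
    apply MvPolynomial.IsHomogeneous.sum
    intro i _
    have h2 := (hu.pderiv (i := i)).pderiv (i := i)
    rwa [show m - 1 - 1 = m - 2 by omega] at h2
  have h3 := (MvPolynomial.isHomogeneous_C (Fin n) (-(1 / ((p - 2) * (m * (m - 1)))))).mul h1
  rwa [zero_add] at h3

lemma kap_eval (u : MvPolynomial (Fin n) ℝ) (m : ℕ) (p : ℝ) (x : Fin n → ℝ) :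
    MvPolynomial.eval x (kap u m p) = -(1 / ((p - 2) * (m * (m - 1)))) * ∑ i, hs u x i i := by
  unfold kap
  rw [map_mul, MvPolynomial.eval_C, map_sum]
  rfl

lemma kap_eq {m : ℕ} (hm : 2 ≤ m) (u : MvPolynomial (Fin n) ℝ) (p : ℝ) (hp : p ≠ 2)
    (x : Fin n → ℝ) (he : Eqn u p x) :
    ∑ i, ∑ j, gr u x i * gr u x j * hs u x i j =
      m * (m - 1) * (MvPolynomial.eval x (kap u m p) * ∑ i, gr u x i ^ 2) := by
  have hmr : (2 : ℝ) ≤ m := by exact_mod_cast hm
  have h0 : (m : ℝ) ≠ 0 := by linarith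
  have h1 : (m : ℝ) - 1 ≠ 0 := by linarith
  have h2 : p - 2 ≠ 0 := sub_ne_zero.mpr hp
  unfold Eqn at he
  rw [kap_eval]
  field_simp
  linear_combination he

lemma kap_bd {m : ℕ} (hm : 2 ≤ m) {u : MvPolynomial (Fin n) ℝ} {M : ℝ} {c : Fin n → ℝ} {p : ℝ}
    (h : IsMax u m M c) (he : ∀ x, Eqn u p x) (hp : p ≠ 2) (x : Fin n → ℝ) (hx : dp x x = 1) :
    |MvPolynomial.eval x (kap u m p)| ≤ M := by
  have hmr : (2 : ℝ) ≤ m := by exact_mod_cast hm
  have hM := h.pos
  set κ := kap u m p with hκ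
  have hκh := kap_hom h.hom p
  -- bound on the unit sphere away from critical points
  have key : ∀ z : Fin n → ℝ, dp z z = 1 → (∑ i, gr u z i ^ 2) ≠ 0 →
      |MvPolynomial.eval z κ| ≤ M := by
    intro z hz hN
    have hNpos : 0 < ∑ i, gr u z i ^ 2 :=
      lt_of_le_of_ne (Finset.sum_nonneg (fun i _ => sq_nonneg _)) (Ne.symm hN)
    have h1 := hess_bd' h.hom hm h.bd z (gr u z) hz
    have h2 : Q u z (gr u z) = m * (m - 1) * (MvPolynomial.eval z κ * ∑ i, gr u z i ^ 2) := by
      rw [hκ, ← kap_eq hm u p hp z (he z)]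
      unfold Q
      apply Finset.sum_congr rfl
      intro i _
      apply Finset.sum_congr rfl
      intro j _
      ring
    have h3 : dp (gr u z) (gr u z) = ∑ i, gr u z i ^ 2 := by
      unfold dp
      apply Finset.sum_congr rfl
      intro i _
      ring
    rw [h2, h3, abs_mul ((m : ℝ) * (m - 1)), abs_of_pos (by nlinarith : (0 : ℝ) < m * (m - 1)),
      abs_mul, abs_of_pos hNpos] at h1
    have h4 : 0 < (m : ℝ) * (m - 1) * ∑ i, gr u z i ^ 2 := by
      apply mul_pos _ hNpos
      nlinarith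
    by_contra hcon
    push Not at hcon
    have := mul_lt_mul_of_pos_left hcon h4
    linarith
  -- bound everywhere away from critical points
  have key2 : ∀ y : Fin n → ℝ, (∑ i, gr u y i ^ 2) ≠ 0 →
      MvPolynomial.eval y κ ^ 2 ≤ M ^ 2 * dp y y ^ (m - 2) := by
    intro y hN
    rcases (dp_self_nonneg y).eq_or_lt with h0 | h0
    · exfalso
      apply hN
      apply Finset.sum_eq_zero
      intro i _
      have hy0 := dp_zero h0.symm
      have hy1 : y = fun i => 0 * y i := by
        funext i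
        rw [hy0]
        simp
      have : gr u y i = 0 := by
        unfold gr
        rw [hy1, eval_scale (h.hom.pderiv (i := i)), zero_pow (by omega), zero_mul]
      rw [this]
      norm_num
    · set r := Real.sqrt (dp y y) with hr
      have hr0 : 0 < r := Real.sqrt_pos.mpr h0
      have hr2 : r ^ 2 = dp y y := Real.sq_sqrt h0.le
      set z : Fin n → ℝ := fun i => r⁻¹ * y i with hz
      have hyz : y = fun i => r * z i := by
        funext i
        simp only [hz]
        field_simp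
      have hzz : dp z z = 1 := by
        have : dp z z = r⁻¹ ^ 2 * dp y y := by
          unfold dp
          rw [Finset.mul_sum]
          apply Finset.sum_congr rfl
          intro i _
          simp only [hz]
          ring
        rw [this, ← hr2]
        field_simp
      have hNz : (∑ i, gr u z i ^ 2) ≠ 0 := by
        intro h1
        apply hN
        apply Finset.sum_eq_zero
        intro i _
        have h2 := (Finset.sum_eq_zero_iff_of_nonneg (fun i _ => sq_nonneg (gr u z i))).mp h1 i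
          (Finset.mem_univ i)
        have h3 : gr u z i = 0 := by
          rcases pow_eq_zero_iff (two_ne_zero) |>.mp h2 with h
          exact h
        have : gr u y i = r ^ (m - 1) * gr u z i := by
          unfold gr
          rw [hyz, eval_scale (h.hom.pderiv (i := i))]
        rw [this, h3]
        ring
      have h5 := key z hzz hNz
      have h6 : MvPolynomial.eval y κ = r ^ (m - 2) * MvPolynomial.eval z κ := by
        rw [hyz, eval_scale hκh]
      have h7 : MvPolynomial.eval z κ ^ 2 ≤ M ^ 2 := by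
        rw [← sq_abs]
        exact pow_le_pow_left₀ (abs_nonneg _) h5 2
      rw [h6, ← hr2, mul_pow, ← pow_mul, ← pow_mul, mul_comm (m - 2) 2, mul_comm (M ^ 2)]
      exact mul_le_mul_of_nonneg_left h7 (by positivity)
  by_contra hcon
  push Not at hcon
  have hopen : IsOpen {y : Fin n → ℝ | M ^ 2 * dp y y ^ (m - 2) < MvPolynomial.eval y κ ^ 2} := by
    apply isOpen_lt
    · unfold dp
      fun_prop
    · exact (MvPolynomial.continuous_eval κ).pow 2
  have hxin : x ∈ {y : Fin n → ℝ | M ^ 2 * dp y y ^ (m - 2) < MvPolynomial.eval y κ ^ 2} := by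
    rw [Set.mem_ofPred_eq, hx, one_pow, mul_one, ← sq_abs (MvPolynomial.eval x κ)]
    exact pow_lt_pow_left₀ hcon hM.le two_ne_zero
  obtain ⟨ε, hε, hball⟩ := Metric.isOpen_iff.mp hopen x hxin
  have hP : (∑ i, MvPolynomial.pderiv i u ^ 2) = 0 := by
    apply MvPolynomial.funext_set (fun i => Metric.ball (x i) ε)
    · intro i
      rw [Real.ball_eq_Ioo]
      exact Set.Ioo_infinite (by linarith)
    · intro y hy
      have hy1 : y ∈ Metric.ball x ε := by
        rw [ball_pi x hε]
        exact hy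
      have hy2 := hball hy1
      rw [Set.mem_ofPred_eq] at hy2
      rw [map_zero, map_sum]
      by_contra hne
      have : (∑ i, gr u y i ^ 2) ≠ 0 := by
        intro h0
        apply hne
        rw [← h0]
        apply Finset.sum_congr rfl
        intro i _
        rw [map_pow]
        rfl
      have := key2 y this
      linarith
  have hPc := congrArg (MvPolynomial.eval c) hP
  rw [map_sum, map_zero] at hPc
  have h1 : ∀ i, MvPolynomial.eval c (MvPolynomial.pderiv i u ^ 2) =
      (m * M) ^ 2 * (c i * c i) := by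
    intro i
    rw [map_pow]
    have := h.grad_eq i
    unfold gr at this
    rw [this]
    ring
  rw [Finset.sum_congr rfl (fun i _ => h1 i), ← Finset.mul_sum] at hPc
  have h2 := h.unit
  unfold dp at h2
  rw [h2, mul_one] at hPc
  have : 0 < ((m : ℝ) * M) ^ 2 := by positivity
  linarith

lemma kap_isMax {m : ℕ} (hm : 2 ≤ m) {u : MvPolynomial (Fin n) ℝ} {M : ℝ} {c : Fin n → ℝ}
    {p : ℝ} (h : IsMax u m M c) (he : ∀ x, Eqn u p x) (hp : p ≠ 2) :
    IsMax (kap u m p) (m - 2) M c where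
  hom := kap_hom h.hom p
  pos := h.pos
  unit := h.unit
  val := by
    have hmr : (2 : ℝ) ≤ m := by exact_mod_cast hm
    have h0 : (m : ℝ) ≠ 0 := by linarith
    have h1 : (m : ℝ) - 1 ≠ 0 := by linarith
    have h2 : p - 2 ≠ 0 := sub_ne_zero.mpr hp
    rw [kap_eval, h.trace hm (he c)]
    field_simp
  bd := kap_bd hm h he hp

lemma kap_second {m : ℕ} (hm : 2 ≤ m) {κ : MvPolynomial (Fin n) ℝ} {M : ℝ} {c w : Fin n → ℝ}
    (h : IsMax κ (m - 2) M c) (hw : dp w w = 1) (hcw : dp c w = 0) :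
    -(((m : ℝ) - 2) * (m - 3) * M) ≤ Q κ c w := by
  by_cases h4 : 4 ≤ m
  · have h1 := (h.second (by omega) w hw hcw).1
    rw [Nat.cast_sub hm] at h1
    push_cast at h1
    have h2 : ((m : ℝ) - 2) * (m - 2 - 1) * M = ((m : ℝ) - 2) * (m - 3) * M := by ring
    rw [h2] at h1
    exact h1
  · have hz : ∀ i j, hs κ c i j = 0 := by
      intro i j
      have h1 := h.hom.pderiv (i := j)
      rw [show m - 2 - 1 = 0 by omega] at h1
      unfold hs
      rw [hom_zero_pd h1, map_zero]
    have hQ : Q κ c w = 0 := by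
      unfold Q
      simp [hz]
    rw [hQ]
    have h23 : m = 2 ∨ m = 3 := by omega
    rcases h23 with h2 | h3
    · subst h2
      norm_num
    · subst h3
      norm_num

lemma mono_h (q s g : ℝ) (hq : q = 2 ∨ 3 ≤ q) (hg : 0 < g) (hgs : g ≤ s)
    (h : 2 * (q - 1) ^ 2 * s ^ 3 - 2 * (q - 1) * (q - 3) * s ^ 2 +
      (q - 2) * (q - 3) * (s - 1) ≤ 0) :
    2 * (q - 1) ^ 2 * g ^ 3 - 2 * (q - 1) * (q - 3) * g ^ 2 +
      (q - 2) * (q - 3) * (g - 1) ≤ 0 := by
  have hB : 0 ≤ 2 * (q - 1) ^ 2 * (s ^ 2 + s * g + g ^ 2) - 2 * (q - 1) * (q - 3) * (s + g) +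
      (q - 2) * (q - 3) := by
    rcases hq with h2 | h3
    · subst h2
      have : 0 < s := by linarith
      nlinarith [mul_pos this hg, mul_pos this this, mul_pos hg hg]
    · have h1 : 0 ≤ (q - 3) * q := mul_nonneg (by linarith) (by linarith)
      nlinarith [sq_nonneg ((q - 1) * (s - g)), sq_nonneg ((q - 1) * (s + g) - 2 / 3 * (q - 3))]
  have h1 : 0 ≤ (s - g) * (2 * (q - 1) ^ 2 * (s ^ 2 + s * g + g ^ 2) -
      2 * (q - 1) * (q - 3) * (s + g) + (q - 2) * (q - 3)) :=
    mul_nonneg (by linarith) hB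
  nlinarith

theorem no_max2 (hn : 3 ≤ n) {u : MvPolynomial (Fin n) ℝ} {m : ℕ} {M : ℝ} {c : Fin n → ℝ}
    {p : ℝ} (hm : 2 ≤ m) (h : IsMax u m M c) (he : ∀ x, Eqn u p x) (hp1 : 1 < p) (hp : p ≠ 2)
    (g : ℝ) (hgd : g * (n - 1) = p - 1)
    (hg : 0 < 2 * ((m : ℝ) - 1) ^ 2 * g ^ 3 - 2 * ((m : ℝ) - 1) * (m - 3) * g ^ 2 +
      (m - 2) * (m - 3) * (g - 1)) : False := by
  have hmr : (2 : ℝ) ≤ m := by exact_mod_cast hm
  have hnr : (3 : ℝ) ≤ n := by exact_mod_cast hn
  have hM := h.pos
  have hg0 : 0 < g := by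
    by_contra hcon
    push Not at hcon
    nlinarith
  set μ : ℝ := m * (m - 1) * M with hμ
  have hμ0 : 0 < μ := by
    have : (0 : ℝ) < m * (m - 1) := by nlinarith
    exact mul_pos this hM
  have hHc : ∀ i, ∑ j, hs u c i j * c j = μ * c i := by
    intro i
    have := euler2' u h.hom c i
    rw [h.grad_eq i] at this
    calc ∑ j, hs u c i j * c j = ∑ j, hs u c j i * c j := by
          apply Finset.sum_congr rfl
          intro j _
          rw [hs_symm]
      _ = (m - 1) * (m * M * c i) := this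
      _ = _ := by rw [hμ]; ring
  have htr : ∑ i, hs u c i i = μ - g * μ * (n - 1) := by
    rw [h.trace hm (he c)]
    linear_combination μ * hgd
  obtain ⟨w, l, hw, hcw, hev, hl⟩ := eig (by omega) (hs u c) (hs_symm u c) c h.unit μ hμ0 hHc
    (g * μ) (by positivity) htr
  have hκ := kap_isMax hm h he hp
  have hF : ∑ i, ∑ j, MvPolynomial.pderiv i u * MvPolynomial.pderiv j u *
      MvPolynomial.pderiv i (MvPolynomial.pderiv j u) =
      MvPolynomial.C ((m : ℝ) * (m - 1)) * (kap u m p * ∑ i, MvPolynomial.pderiv i u *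
        MvPolynomial.pderiv i u) := by
    apply MvPolynomial.funext
    intro x
    have h1 := kap_eq hm u p hp x (he x)
    simp only [map_sum, map_mul, MvPolynomial.eval_C]
    simp only [gr, hs, pow_two] at h1
    rw [h1]
  have hid := second_id hm h hκ hF hw hcw l hev
  have hq := kap_second hm hκ hw hcw
  -- substitute
  obtain ⟨s, hs'⟩ : ∃ s : ℝ, l = -(s * μ) := ⟨-(l / μ), by field_simp⟩
  have hsg : g ≤ s := by
    have : g * μ ≤ s * μ := by linarith
    exact le_of_mul_le_mul_right this hμ0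
  have hfin : 2 * ((m : ℝ) - 1) ^ 2 * s ^ 3 - 2 * ((m : ℝ) - 1) * (m - 3) * s ^ 2 +
      (m - 2) * (m - 3) * (s - 1) ≤ 0 := by
    have hpos : 0 < (m : ℝ) ^ 3 * (m - 1) * M ^ 3 := by
      have : (0 : ℝ) < m - 1 := by linarith
      positivity
    have h1 : (m : ℝ) ^ 3 * (m - 1) * M ^ 3 * (2 * ((m : ℝ) - 1) ^ 2 * s ^ 3 -
        2 * ((m : ℝ) - 1) * (m - 3) * s ^ 2 + (m - 2) * (m - 3) * (s - 1)) =
        -((m : ℝ) ^ 3 * (m - 1) * M ^ 2 * (Q (kap u m p) c w + ((m : ℝ) - 2) * (m - 3) * M)) := by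
      rw [hs', hμ] at hid
      linear_combination (-1) * hid
    have h2 : 0 ≤ (m : ℝ) ^ 3 * (m - 1) * M ^ 2 *
        (Q (kap u m p) c w + ((m : ℝ) - 2) * (m - 3) * M) := by
      have : (0 : ℝ) < m - 1 := by linarith
      apply mul_nonneg (by positivity)
      linarith
    by_contra hcon
    push Not at hcon
    have := mul_pos hpos hcon
    linarith
  have hq23 : (m : ℝ) = 2 ∨ (3 : ℝ) ≤ m := by
    rcases Nat.lt_or_ge m 3 with h3 | h3
    · left
      have : m = 2 := by omega
      exact_mod_cast this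
    · right
      exact_mod_cast h3
  have := mono_h m s g hq23 hg0 hsg hfin
  linarith

theorem threshold (hn : 3 ≤ n) (p : ℝ) (hp1 : 1 < p) (hp2 : p ≠ 2) (m : ℕ) (hm : 2 ≤ m)
    (hg : 0 < 2 * ((m : ℝ) - 1) ^ 2 * ((p - 1) / (n - 1)) ^ 3 -
      2 * ((m : ℝ) - 1) * (m - 3) * ((p - 1) / (n - 1)) ^ 2 +
      (m - 2) * (m - 3) * ((p - 1) / (n - 1) - 1))
    (u : MvPolynomial (Fin n) ℝ) (hu0 : u ≠ 0) (hu : u.IsHomogeneous m) :
    ¬ ∀ x, Eqn u p x := by
  intro he
  have hnr : (3 : ℝ) ≤ n := by exact_mod_cast hn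
  have hgd : (p - 1) / ((n : ℝ) - 1) * (n - 1) = p - 1 := by
    have : (n : ℝ) - 1 ≠ 0 := by linarith
    field_simp
  obtain ⟨M, c, h | h⟩ := exists_isMax hm hu hu0 hn
  · exact no_max2 hn hm h he hp1 hp2 _ hgd hg
  · exact no_max2 hn hm h (fun x => Eqn_neg u p x (he x)) hp1 hp2 _ hgd hg

end Pool.Agent.Helper88.PLap
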